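import Pool.Agent.P.MP_32bf8a_an.PR2.Extra

/-!
A cluster at the origin and one point just off the unit circle: any one of these points may be
removed.
-/

open Filter Topology Complex Polynomial
open scoped ComplexConjugate

namespace Pool.Agent.P.MP_32bf8a_an.PR

theorem eventually_off {δ : ℕ} (hδ : 1 ≤ δ) {ι : Type*} {u : ι → ℂ} {J : Finset ι} {s : ℂ}
    (hs : s * conj s = 1) (h : PRL (δ / 2) (if Even δ then 2 else 1) (conj s ^ 2) u J) :
    ∀ᶠ x : ℝ × ℝ in 𝓝 (0, 1), x.1 ≠ 0 → x.2 ≠ 1 → ∀ p q : ℂ[X], p.natDegree ≤ δ →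
      q.natDegree ≤ δ → st δ p = p → st δ q = q →
      (∀ j ∈ J, (p.eval (x.1 * u j) * conj (q.eval (x.1 * u j))).im = 0) →
      (p.eval (x.2 * s ^ 2) * conj (q.eval (x.2 * s ^ 2))).im = 0 → Dep p q := by
  classical
  have cX : Continuous fun x : (ℝ × ℝ) × (Fin (δ / 2 + 1) → ℂ) => fX δ s x.1.1 x.1.2 x.2 := by
    simp only [fX, LinearMap.coe_mk, AddHom.coe_mk]
    refine continuous_finsetSum _ fun a _ => ?_
    split_ifs <;> fun_prop
  have cY : Continuous fun x : (ℝ × ℝ) × (Fin (δ / 2 + 1) → ℂ) => fY δ s x.1.1 x.1.2 x.2 := by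
    simp only [fY, LinearMap.coe_mk, AddHom.coe_mk]
    fun_prop
  have cP : ∀ z, Continuous fun x : (ℝ × ℝ) × (Fin (δ / 2 + 1) → ℂ) => phi δ x.1.1 z x.2 := by
    intro z
    simp only [phi, LinearMap.coe_mk, AddHom.coe_mk]
    refine continuous_finsetSum _ fun a _ => ?_
    split_ifs <;> fun_prop
  have := eventually_alt (T := ℝ × ℝ) (ι := Option (Option J))
    (fun x j => j.elim (if Even δ then top (δ / 2) else 0)
      fun j => j.elim (gX δ s x.1 x.2) fun j => phi δ x.1 (u j))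
    (fun x j => j.elim (top (δ / 2)) fun j => j.elim (gY δ s x.1 x.2) fun j => phi δ x.1 (u j)) (by
      rintro (_ | _ | j)
      · simp only [Option.elim]
        split_ifs
        · simp only [top, LinearMap.proj_apply]
          fun_prop
        · simp only [LinearMap.zero_apply]
          fun_prop
      · simp only [Option.elim, gX, top, LinearMap.coe_mk, AddHom.coe_mk, LinearMap.proj_apply]
        split_ifs <;> fun_prop
      · exact cP _) (by
      rintro (_ | _ | j)
      · simp only [Option.elim, top, LinearMap.proj_apply]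
        fun_prop
      · simp only [Option.elim, gY, sec, LinearMap.coe_mk, AddHom.coe_mk]
        split_ifs <;> fun_prop
      · exact cP _) (0, 1) (fun p q hpq => by
      have h0 := hpq none
      have h1 := hpq (some none)
      simp only [Option.elim] at h0 h1
      refine prl_iff.1 h p q (fun j hj => ?_) (fun _ => ?_) fun hl => ?_
      · have := (W_self _ _ _).1 (hpq (some (some ⟨j, hj⟩)))
        simpa only [Option.elim, phi_zero] using this
      · by_cases he : Even δ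
        · rw [if_pos he] at h0
          exact (W_self _ _ _).1 h0
        · rw [W_odd he hs] at h1
          linarith
      · by_cases he : Even δ
        · rw [W_even hδ he] at h1
          linarith
        · rw [if_neg he] at hl
          omega)
  refine this.mono fun x hx h0 hr p q hp hq h1 h2 hJ hz => dep_of_low hp hq h1 h2 h0 (hx _ _ ?_)
  rintro (_ | _ | j)
  · simp only [Option.elim]
    split_ifs with he
    · obtain ⟨d, hd⟩ := he
      have e3 := mid_real h1 (a := δ / 2) (by omega)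
      have e4 := mid_real h2 (a := δ / 2) (by omega)
      rw [W_self]
      simp only [top, LinearMap.proj_apply, Fin.val_last, ← ofReal_pow, map_mul, conj_ofReal,
        mul_im, mul_re, ofReal_re, ofReal_im, conj_re, conj_im, e3, e4]
      ring
    · simp [W]
  · exact W_coeff hp hq h1 h2 hs _ hr hz
  · simp only [Option.elim]
    rw [W_self, phi_coeff hp h1, phi_coeff hq h2]
    exact hJ j j.2

/-- together with the unit circle, the points `c j`, `j ∈ J`, do phase retrieval in degree `D` -/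
def CLJ (D : ℕ) {ι : Type*} (c : ι → ℂ) (J : Finset ι) : Prop :=
  ∀ P Q : ℂ[X], P.natDegree ≤ D → Q.natDegree ≤ D → P * st D Q = st D P * Q →
    (∀ j ∈ J, (P.eval (c j) * conj (Q.eval (c j))).im = 0) → Dep P Q

theorem clj_of {D : ℕ} {ι : Type*} {c : ι → ℂ} (hc : Function.Injective c) {J₀ : Finset ι}
    (h : ∀ δ ≤ D, ∀ J ⊆ J₀, J₀.card + δ ≤ J.card + D → ∀ p q : ℂ[X], p.natDegree ≤ δ →
      q.natDegree ≤ δ → st δ p = p → st δ q = q →
      (∀ j ∈ J, (p.eval (c j) * conj (q.eval (c j))).im = 0) → Dep p q) : CLJ D c J₀ := by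
  classical
  intro P Q hP hQ hid hJ₀
  by_contra hdep
  obtain ⟨g, p, q, δ, hg, hgd, hp, hq, s1, s2, rfl, rfl⟩ := factor hP hQ hid hdep
  set J : Finset ι := J₀.filter fun j => g.eval (c j) ≠ 0 with hJ
  have hcard : J₀.card + δ ≤ J.card + D := by
    have e1 : (J₀.filter fun j => ¬ g.eval (c j) ≠ 0).card ≤ g.natDegree := by
      rw [← Finset.card_image_of_injective _ hc]
      refine card_le_degree_of_subset_roots fun z hz => ?_
      simp only [Finset.mem_val, Finset.mem_image, Finset.mem_filter, ne_eq, not_not] at hz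
      obtain ⟨j, hj, rfl⟩ := hz
      exact (mem_roots hg).2 hj.2
    have e2 := Finset.card_filter_add_card_filter_not (s := J₀) (fun j => g.eval (c j) ≠ 0)
    rw [← hJ] at e2
    omega
  obtain ⟨a, b, hab, hd⟩ := h δ (by omega) J (Finset.filter_subset _ _) hcard p q hp hq s1 s2 (by
    intro j hj
    have e1 : g.eval (c j) ≠ 0 := (Finset.mem_filter.1 hj).2
    have e2 := hJ₀ j (Finset.mem_filter.1 hj).1
    simp only [eval_mul, map_mul] at e2
    rw [mul_mul_mul_comm, mul_conj, im_ofReal_mul] at e2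
    exact (mul_eq_zero.1 e2).resolve_left (by simpa using e1))
  refine hdep ⟨a, b, hab, ?_⟩
  rw [← mul_smul_comm, ← mul_smul_comm, ← mul_add, hd, mul_zero]

theorem level (F : ℕ) {ι : Type*} [Fintype ι] [DecidableEq ι] {u : ι → ℂ}
    (hu : Function.Injective u) {s : ℂ} (hs : s * conj s = 1)
    (hA : ∀ δ ≤ F, ∀ J : Finset ι, Fintype.card ι + δ ≤ J.card + F → PRP (δ / 2) (Even δ) u J)
    (hB : ∀ δ ≤ F, 1 ≤ δ → ∀ J : Finset ι, Fintype.card ι + δ ≤ J.card + 1 + F →
      PRL (δ / 2) (if Even δ then 2 else 1) (conj s ^ 2) u J) :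
    ∃ ε : ℝ, ∀ᶠ r : ℝ in 𝓝[≠] 1, ∀ j₀ : Option ι,
      CLJ F (fun j : Option ι => j.elim (r * s ^ 2) fun j => ε * u j) (Finset.univ.erase j₀) := by
  have h1 : ∀ᶠ ε : ℝ in 𝓝 0, ∀ x : Fin (F + 1) × Finset ι,
      Fintype.card ι + x.1 ≤ x.2.card + F → ε ≠ 0 → ∀ p q : ℂ[X], p.natDegree ≤ x.1 →
      q.natDegree ≤ x.1 → st x.1 p = p → st x.1 q = q →
      (∀ j ∈ x.2, (p.eval (ε * u j) * conj (q.eval (ε * u j))).im = 0) → Dep p q := by
    rw [eventually_all]
    rintro ⟨δ, J⟩
    by_cases hc : Fintype.card ι + δ ≤ J.card + F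
    · exact (eventually_real (hA δ (Nat.le_of_lt_succ δ.2) J hc)).mono fun ε hε _ => hε
    · exact Eventually.of_forall fun ε h => absurd h hc
  have h2 : ∀ᶠ y : ℝ × ℝ in 𝓝 (0, 1), ∀ x : Fin (F + 1) × Finset ι,
      1 ≤ (x.1 : ℕ) ∧ Fintype.card ι + x.1 ≤ x.2.card + 1 + F → y.1 ≠ 0 → y.2 ≠ 1 →
      ∀ p q : ℂ[X], p.natDegree ≤ x.1 → q.natDegree ≤ x.1 → st x.1 p = p → st x.1 q = q →
      (∀ j ∈ x.2, (p.eval (y.1 * u j) * conj (q.eval (y.1 * u j))).im = 0) →
      (p.eval (y.2 * s ^ 2) * conj (q.eval (y.2 * s ^ 2))).im = 0 → Dep p q := by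
    rw [eventually_all]
    rintro ⟨δ, J⟩
    by_cases hc : 1 ≤ (δ : ℕ) ∧ Fintype.card ι + δ ≤ J.card + 1 + F
    · exact (eventually_off hc.1 hs (hB δ (Nat.le_of_lt_succ δ.2) hc.1 J hc.2)).mono
        fun ε hε _ => hε
    · exact Eventually.of_forall fun ε h => absurd h hc
  have h3 : ∀ᶠ y : ℝ × ℝ in 𝓝 (0, 1), ∀ j, (y.2 : ℂ) * s ^ 2 - y.1 * u j ≠ 0 := by
    rw [eventually_all]
    intro j
    have hc : Continuous fun y : ℝ × ℝ => (y.2 : ℂ) * s ^ 2 - y.1 * u j := by fun_prop
    refine hc.continuousAt.eventually_ne ?_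
    have : s ≠ 0 := left_ne_zero_of_mul_eq_one hs
    simpa using this
  obtain ⟨ε, ⟨e1, e2⟩, h0⟩ := (((h1.and (h2.and h3).curry_nhds).filter_mono
    (nhdsWithin_le_nhds (s := {0}ᶜ))).and self_mem_nhdsWithin).exists
  have h0' : ε ≠ 0 := h0
  refine ⟨ε, ((e2.filter_mono nhdsWithin_le_nhds).and self_mem_nhdsWithin).mono ?_⟩
  rintro r ⟨⟨e3, e4⟩, hr⟩ j₀
  have hr' : r ≠ 1 := hr
  refine clj_of ?_ fun δ hδ J hJ hcard p q hp hq s1 s2 hc => ?_
  · rintro (_ | i) (_ | j) hij
    · rfl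
    · exact absurd (sub_eq_zero.2 hij) (e4 j)
    · exact absurd (sub_eq_zero.2 hij.symm) (e4 i)
    · rw [hu (mul_left_cancel₀ (by exact_mod_cast h0') hij)]
  rw [Finset.card_erase_of_mem (Finset.mem_univ _), Finset.card_univ, Fintype.card_option]
    at hcard
  have hc' : ∀ j ∈ J.eraseNone, (p.eval (ε * u j) * conj (q.eval (ε * u j))).im = 0 :=
    fun j hj => hc (some j) (Finset.mem_eraseNone.1 hj)
  by_cases hn : none ∈ J
  · have := Finset.card_eraseNone_of_mem hn
    have := Finset.card_pos.2 ⟨_, hn⟩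
    rcases Nat.eq_zero_or_pos δ with rfl | hδ'
    · refine dep_of_im hp hq ?_
      simp [mid_real s1 (a := 0) rfl, mid_real s2 (a := 0) rfl]
    · exact e3 (⟨δ, by omega⟩, J.eraseNone) ⟨hδ', by simp only; omega⟩ h0' hr' p q hp hq s1 s2 hc'
        (hc none hn)
  · have := Finset.card_eraseNone_of_not_mem hn
    exact e1 (⟨δ, by omega⟩, J.eraseNone) (by simp only; omega) h0' p q hp hq s1 s2 hc'

end Pool.Agent.P.MP_32bf8a_an.PR
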