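import Pool.Agent.P.MP_32bf8a_an.PR2.GenDir

/-!
One point just off the unit circle: on self reciprocal pencils it raises by one the order of the
condition at infinity of a small cluster at the origin.
-/

open Filter Topology Complex Polynomial
open scoped ComplexConjugate

namespace Pool.Agent.P.MP_32bf8a_an.PR

/-- rescaled real part of the value at `r s ^ 2` -/
noncomputable def fX (δ : ℕ) (s : ℂ) (ε r : ℝ) : (Fin (δ / 2 + 1) → ℂ) →ₗ[ℝ] ℝ where
  toFun A := ∑ a : Fin (δ / 2 + 1), ε ^ (δ / 2 - a) * (A a * conj s ^ (δ - 2 * a)).re *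
    (r ^ (a : ℕ) + if 2 * (a : ℕ) < δ then r ^ (δ - a) else 0)
  map_add' A B := by
    rw [← Finset.sum_add_distrib]
    refine Finset.sum_congr rfl fun a _ => ?_
    simp only [Pi.add_apply, add_mul, add_re]
    ring
  map_smul' c A := by
    rw [RingHom.id_apply, smul_eq_mul, Finset.mul_sum]
    refine Finset.sum_congr rfl fun a _ => ?_
    simp only [Pi.smul_apply, real_smul, mul_assoc, re_ofReal_mul]
    ring

/-- rescaled imaginary part of the value at `r s ^ 2` -/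
noncomputable def fY (δ : ℕ) (s : ℂ) (ε r : ℝ) : (Fin (δ / 2 + 1) → ℂ) →ₗ[ℝ] ℝ where
  toFun A := ∑ a : Fin (δ / 2 + 1), ε ^ ((δ - 1) / 2 - a) * (A a * conj s ^ (δ - 2 * a)).im *
    (r ^ (a : ℕ) * ∑ i ∈ Finset.range (δ - 2 * a), r ^ i)
  map_add' A B := by
    rw [← Finset.sum_add_distrib]
    refine Finset.sum_congr rfl fun a _ => ?_
    simp only [Pi.add_apply, add_mul, add_im]
    ring
  map_smul' c A := by
    rw [RingHom.id_apply, smul_eq_mul, Finset.mul_sum]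
    refine Finset.sum_congr rfl fun a _ => ?_
    simp only [Pi.smul_apply, real_smul, mul_assoc, im_ofReal_mul]
    ring

theorem eval_off {δ : ℕ} {p : ℂ[X]} (hp : p.natDegree ≤ δ) (h : st δ p = p) {s : ℂ}
    (hs : s * conj s = 1) (r : ℝ) : p.eval (r * s ^ 2) * conj s ^ δ =
      ∑ a : Fin (δ / 2 + 1), (p.coeff a * conj s ^ (δ - 2 * a) * (r ^ (a : ℕ) : ℝ) +
        if 2 * (a : ℕ) < δ then conj (p.coeff a * conj s ^ (δ - 2 * a)) * (r ^ (δ - a) : ℝ)
        else 0) := by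
  have h1 := phi_coeff hp h 1 (r * s ^ 2)
  simp only [ofReal_one, one_pow, mul_one, one_mul, phi, LinearMap.coe_mk, AddHom.coe_mk] at h1
  rw [← h1, Finset.sum_mul]
  refine Finset.sum_congr rfl fun a _ => ?_
  obtain ⟨m, hm⟩ : ∃ m, δ = 2 * a + m := ⟨δ - 2 * a, by have := a.2; omega⟩
  have e1 : δ - 2 * (a : ℕ) = m := by omega
  have e2 : δ - (a : ℕ) = a + m := by omega
  have e3 : conj s ^ δ = conj s ^ (2 * (a : ℕ) + m) := by rw [← hm]
  have e4 : (s * conj s) ^ (2 * (a : ℕ)) = 1 := by rw [hs, one_pow]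
  have e5 : (s * conj s) ^ (2 * (a : ℕ) + m) = 1 := by rw [hs, one_pow]
  rw [e1, e2, e3]
  split_ifs
  · simp only [map_mul, map_pow, conj_conj]
    push_cast
    linear_combination (p.coeff a * r ^ (a : ℕ) * conj s ^ m) * e4 +
      (conj (p.coeff a) * r ^ ((a : ℕ) + m) * s ^ m) * e5
  · push_cast
    linear_combination (p.coeff a * r ^ (a : ℕ) * conj s ^ m) * e4

theorem fX_coeff {δ : ℕ} {p : ℂ[X]} (hp : p.natDegree ≤ δ) (h : st δ p = p) {s : ℂ}
    (hs : s * conj s = 1) (ε r : ℝ) : fX δ s ε r (fun a => p.coeff a * (ε : ℂ) ^ (a : ℕ)) =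
      ε ^ (δ / 2) * (p.eval (r * s ^ 2) * conj s ^ δ).re := by
  rw [eval_off hp h hs, re_sum, Finset.mul_sum]
  simp only [fX, LinearMap.coe_mk, AddHom.coe_mk]
  refine Finset.sum_congr rfl fun a _ => ?_
  have e1 : ε ^ (δ / 2) = ε ^ (δ / 2 - a) * ε ^ (a : ℕ) := by
    rw [← pow_add]; congr 1; have := a.2; omega
  rw [e1, mul_right_comm (p.coeff a), ← ofReal_pow, re_mul_ofReal]
  split_ifs
  · simp only [add_re, re_mul_ofReal, conj_re]; ring
  · simp only [add_zero, re_mul_ofReal]; ring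

theorem mid_real {δ : ℕ} {p : ℂ[X]} (h : st δ p = p) {a : ℕ} (ha : δ = 2 * a) :
    (p.coeff a).im = 0 := by
  have e1 := coeff_of_st h (a := a) (by omega)
  rw [show δ - a = a by omega] at e1
  exact conj_eq_iff_im.1 e1.symm

theorem fY_coeff {δ : ℕ} {p : ℂ[X]} (hp : p.natDegree ≤ δ) (h : st δ p = p) {s : ℂ}
    (hs : s * conj s = 1) (ε r : ℝ) :
    (1 - r) * fY δ s ε r (fun a => p.coeff a * (ε : ℂ) ^ (a : ℕ)) =
      ε ^ ((δ - 1) / 2) * (p.eval (r * s ^ 2) * conj s ^ δ).im := by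
  rw [eval_off hp h hs, im_sum, Finset.mul_sum]
  simp only [fY, LinearMap.coe_mk, AddHom.coe_mk]
  rw [Finset.mul_sum]
  refine Finset.sum_congr rfl fun a _ => ?_
  rw [mul_right_comm (p.coeff a), ← ofReal_pow, im_mul_ofReal]
  split_ifs with ha
  · have e1 : ε ^ ((δ - 1) / 2) = ε ^ ((δ - 1) / 2 - a) * ε ^ (a : ℕ) := by
      rw [← pow_add]; congr 1; omega
    have e2 : r ^ (δ - a) = r ^ (a : ℕ) * r ^ (δ - 2 * a) := by
      rw [← pow_add]; congr 1; omega
    have e3 := mul_neg_geom_sum r (δ - 2 * a)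
    simp only [add_im, im_mul_ofReal, conj_im]
    rw [e1, e2]
    linear_combination (ε ^ ((δ - 1) / 2 - a) * ε ^ (a : ℕ) * r ^ (a : ℕ) *
      (p.coeff a * conj s ^ (δ - 2 * a)).im) * e3
  · have e1 : δ = 2 * a := by have := a.2; omega
    have e2 : δ - 2 * (a : ℕ) = 0 := by omega
    simp [e2, mid_real h e1, -ofReal_pow]

theorem fX_zero (δ : ℕ) (s : ℂ) (A : Fin (δ / 2 + 1) → ℂ) : fX δ s 0 1 A =
    (top (δ / 2) A * conj s ^ (δ - 2 * (δ / 2))).re * (1 + if 2 * (δ / 2) < δ then 1 else 0) := by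
  simp only [fX, top, LinearMap.coe_mk, AddHom.coe_mk, LinearMap.proj_apply]
  rw [Finset.sum_eq_single (Fin.last _)]
  · simp
  · intro a _ ha
    have := Fin.val_lt_last ha
    rw [zero_pow (by omega)]
    simp
  · simp

theorem fY_zero {δ : ℕ} (hδ : 1 ≤ δ) (s : ℂ) (A : Fin (δ / 2 + 1) → ℂ) : fY δ s 0 1 A =
    (A ⟨(δ - 1) / 2, by omega⟩ * conj s ^ (δ - 2 * ((δ - 1) / 2))).im *
      (δ - 2 * ((δ - 1) / 2) : ℕ) := by
  simp only [fY, LinearMap.coe_mk, AddHom.coe_mk]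
  rw [Finset.sum_eq_single (⟨(δ - 1) / 2, by omega⟩ : Fin (δ / 2 + 1))]
  · simp
  · intro a _ ha
    have h1 : (a : ℕ) ≠ (δ - 1) / 2 := fun h => ha (Fin.ext h)
    have h2 := a.2
    rcases lt_or_gt_of_ne h1 with h | h
    · rw [zero_pow (by omega)]
      simp
    · rw [show δ - 2 * (a : ℕ) = 0 by omega]
      simp
  · simp

/-- first map of the form attached to the point off the circle -/
noncomputable def gX (δ : ℕ) (s : ℂ) (ε r : ℝ) : (Fin (δ / 2 + 1) → ℂ) →ₗ[ℝ] ℂ where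
  toFun A := fX δ s ε r A + if Even δ then (top (δ / 2) A).im * I else 0
  map_add' A B := by split_ifs <;> simp only [map_add, add_im] <;> push_cast <;> ring
  map_smul' c A := by
    split_ifs <;> simp only [map_smul, smul_eq_mul, real_smul, im_ofReal_mul, RingHom.id_apply] <;>
      push_cast <;> ring

/-- second map of the form attached to the point off the circle -/
noncomputable def gY (δ : ℕ) (s : ℂ) (ε r : ℝ) : (Fin (δ / 2 + 1) → ℂ) →ₗ[ℝ] ℂ where
  toFun A := fY δ s ε r A * I + if Even δ then 2 * (sec (δ / 2) (conj s ^ 2) A).re else 0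
  map_add' A B := by split_ifs <;> simp only [map_add, add_re] <;> push_cast <;> ring
  map_smul' c A := by
    split_ifs <;> simp only [map_smul, smul_eq_mul, real_smul, re_ofReal_mul, RingHom.id_apply] <;>
      push_cast <;> ring

theorem W_even {δ : ℕ} (hδ : 1 ≤ δ) (he : Even δ) (s : ℂ) (A B : Fin (δ / 2 + 1) → ℂ) :
    W (gX δ s 0 1) (gY δ s 0 1) A B = 2 * W (top (δ / 2)) (sec (δ / 2) (conj s ^ 2)) A B := by
  obtain ⟨d, hd⟩ := id he
  have e1 : ∀ A, gX δ s 0 1 A = top (δ / 2) A := by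
    intro A
    simp only [gX, LinearMap.coe_mk, AddHom.coe_mk, he, if_true, fX_zero]
    rw [show δ - 2 * (δ / 2) = 0 by omega, if_neg (by omega)]
    simp
  have e2 : ∀ A, gY δ s 0 1 A = 2 * sec (δ / 2) (conj s ^ 2) A := by
    intro A
    simp only [gY, LinearMap.coe_mk, AddHom.coe_mk, he, if_true, fY_zero hδ]
    have e3 : (⟨(δ - 1) / 2, by omega⟩ : Fin (δ / 2 + 1)) = ⟨δ / 2 - 1, by omega⟩ :=
      Fin.ext (by simp only; omega)
    rw [show δ - 2 * ((δ - 1) / 2) = 2 by omega, e3, mul_comm (A _)]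
    change _ = 2 * (conj s ^ 2 * A ⟨δ / 2 - 1, by omega⟩)
    simp only [sec, LinearMap.coe_mk, AddHom.coe_mk]
    rw [← re_add_im (conj s ^ 2 * A ⟨δ / 2 - 1, by omega⟩)]
    simp
    ring
  simp only [W, e1, e2, map_mul, map_ofNat, add_im, mul_im, mul_re, re_ofNat, im_ofNat, conj_re,
    conj_im]
  ring

theorem W_odd {δ : ℕ} (he : ¬ Even δ) {s : ℂ} (hs : s * conj s = 1)
    (A B : Fin (δ / 2 + 1) → ℂ) :
    W (gX δ s 0 1) (gY δ s 0 1) A B = 2 * (top (δ / 2) A * conj (top (δ / 2) B)).im := by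
  obtain ⟨d, hd⟩ := Nat.not_even_iff_odd.1 he
  have e3 : (⟨(δ - 1) / 2, by omega⟩ : Fin (δ / 2 + 1)) = Fin.last _ :=
    Fin.ext (by simp only [Fin.val_last]; omega)
  have e4 := congrArg re hs
  simp only [W, gX, gY, LinearMap.coe_mk, AddHom.coe_mk, he, if_false, fX_zero,
    fY_zero (show 1 ≤ δ by omega), e3, show δ - 2 * (δ / 2) = 1 by omega,
    show δ - 2 * ((δ - 1) / 2) = 1 by omega, show 2 * (δ / 2) < δ by omega, if_true, top,
    LinearMap.proj_apply, pow_one, add_zero, Nat.cast_one, mul_one, add_im, mul_im, mul_re,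
    conj_re, conj_im, ofReal_re, ofReal_im, I_re, I_im, one_re] at e4 ⊢
  linear_combination (2 * ((A (Fin.last _)).im * (B (Fin.last _)).re -
    (A (Fin.last _)).re * (B (Fin.last _)).im)) * e4

theorem W_coeff {δ : ℕ} {p q : ℂ[X]} (hp : p.natDegree ≤ δ) (hq : q.natDegree ≤ δ)
    (h1 : st δ p = p) (h2 : st δ q = q) {s : ℂ} (hs : s * conj s = 1) (ε : ℝ) {r : ℝ}
    (hr : r ≠ 1) (h : (p.eval (r * s ^ 2) * conj (q.eval (r * s ^ 2))).im = 0) :
    W (gX δ s ε r) (gY δ s ε r) (fun a => p.coeff a * (ε : ℂ) ^ (a : ℕ))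
      (fun a => q.coeff a * (ε : ℂ) ^ (a : ℕ)) = 0 := by
  have e1 : ∀ {p : ℂ[X]}, st δ p = p → gX δ s ε r (fun a => p.coeff a * (ε : ℂ) ^ (a : ℕ)) =
      fX δ s ε r (fun a => p.coeff a * (ε : ℂ) ^ (a : ℕ)) := by
    intro p h1
    simp only [gX, LinearMap.coe_mk, AddHom.coe_mk]
    split_ifs with he
    · obtain ⟨d, hd⟩ := he
      have := mid_real h1 (a := δ / 2) (by omega)
      simp [top, ← ofReal_pow, this]
    · simp
  have e2 : ∀ A, (gY δ s ε r A).im = fY δ s ε r A := by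
    intro A
    simp only [gY, LinearMap.coe_mk, AddHom.coe_mk]
    split_ifs <;> simp
  have e3 : (p.eval (r * s ^ 2) * conj s ^ δ * conj (q.eval (r * s ^ 2) * conj s ^ δ)).im = 0 := by
    rw [map_mul, mul_mul_mul_comm, mul_conj, im_mul_ofReal, h, zero_mul]
  have a1 := fX_coeff hp h1 hs ε r
  have a2 := fX_coeff hq h2 hs ε r
  have a3 := fY_coeff hp h1 hs ε r
  have a4 := fY_coeff hq h2 hs ε r
  apply mul_left_cancel₀ (sub_ne_zero.2 hr.symm)
  rw [mul_im, conj_re, conj_im] at e3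
  rw [W, e1 h1, e1 h2, add_im, im_ofReal_mul, conj_ofReal, im_mul_ofReal, conj_im, e2, e2, a1, a2]
  linear_combination (ε ^ (δ / 2) * (q.eval (r * s ^ 2) * conj s ^ δ).re) * a3 -
    (ε ^ (δ / 2) * (p.eval (r * s ^ 2) * conj s ^ δ).re) * a4 +
    (ε ^ (δ / 2) * ε ^ ((δ - 1) / 2)) * e3

end Pool.Agent.P.MP_32bf8a_an.PR
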