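import Pool.Agent.P.MP_32bf8a_an.PR2.Level

/-!
`4 d - 2` generic points, the point at infinity and the real direction at infinity do phase
retrieval in degree `d`.
-/

open Filter Topology Complex Polynomial
open scoped ComplexConjugate

namespace Pool.Agent.P.MP_32bf8a_an.PR

theorem Gen.card_le_of_insert {ι : Type*} {u : ι → ℂ} (hu : Gen u) (J : Finset ι) (G : Finset ℂ)
    (h : ∀ j ∈ J, ∃ t, u j ∈ cl (insert t (G : Set ℂ)) ∧ conj (u j) ∈ cl (insert t (G : Set ℂ))) :
    J.card ≤ G.card := by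
  classical
  choose! t ht using h
  have h1 := hu J (G ∪ J.image t) (by
    intro j hj
    have h2 : cl (insert (t j) (G : Set ℂ)) ≤ cl ((G ∪ J.image t : Finset ℂ) : Set ℂ) := by
      refine cl_mono ?_
      rintro z (rfl | hz)
      · simp only [Finset.coe_union, Finset.coe_image]
        exact Or.inr ⟨j, hj, rfl⟩
      · simp only [Finset.coe_union]
        exact Or.inl hz
    exact ⟨h2 (ht j hj).1, h2 (ht j hj).2⟩)
  have h2 := Finset.card_union_le G (J.image t)
  have h3 := Finset.card_image_le (s := J) (f := t)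
  omega

theorem div_mem_cl {G : Set ℂ} {a b z : ℂ} (ha : a ∈ cl G) (hb : b ∈ cl G) (h0 : a ≠ 0)
    (h : a * z + b = 0) : z ∈ cl G := by
  refine root_mem_cl (f := C a * X + C b) ?_ (fun n => ?_) (by simpa using h)
  · intro h1
    have := congrArg (fun f : ℂ[X] => f.coeff 1) h1
    simp at this
    exact h0 this
  · simp only [coeff_add, coeff_C_mul, coeff_X, coeff_C]
    refine add_mem (mul_mem ha ?_) ?_ <;> split_ifs <;> simp [hb]

theorem point_ins {G : Set ℂ} {P Q : ℂ[X]} {d : ℕ} (hP : ∀ n, P.coeff n ∈ cl G)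
    (hP' : ∀ n, conj (P.coeff n) ∈ cl G) (hQ : ∀ n, Q.coeff n ∈ cl G)
    (hQ' : ∀ n, conj (Q.coeff n) ∈ cl G) (p1 : P.coeff d = 1) (q0 : Q.coeff d = 0) (hQ0 : Q ≠ 0)
    {w : ℂ} (hw : (P.eval w * conj (Q.eval w)).im = 0) :
    ∃ t, w ∈ cl (insert t G) ∧ conj w ∈ cl (insert t G) := by
  by_cases h : C (P.eval w) * Q.map conj - C (Q.eval w) * P.map conj = 0
  · refine ⟨conj w, cl_mono (Set.subset_insert _ _) ?_, subset_cl (by simp)⟩
    have h1 := congrArg (fun f : ℂ[X] => f.coeff d) h
    simp only [coeff_sub, coeff_C_mul, coeff_map, p1, q0, map_one, map_zero, mul_one, mul_zero,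
      zero_sub, coeff_zero, neg_eq_zero] at h1
    exact root_mem_cl hQ0 hQ h1
  · have hm : cl G ≤ cl (insert w G) := cl_mono (Set.subset_insert _ _)
    have hw' : w ∈ cl (insert w G) := subset_cl (by simp)
    refine ⟨w, hw', root_mem_cl h (fun n => ?_) ?_⟩
    · simp only [coeff_sub, coeff_C_mul, coeff_map]
      exact sub_mem (mul_mem (eval_mem_cl (fun n => hm (hP n)) hw') (hm (hQ' n)))
        (mul_mem (eval_mem_cl (fun n => hm (hQ n)) hw') (hm (hP' n)))
    · simp only [eval_sub, eval_mul, eval_C, ← conj_eval]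
      have := conj_eq_iff_im.2 hw
      rw [map_mul, conj_conj] at this
      linear_combination -this

/-- an independent pair satisfying all the conditions -/
def Cond (d : ℕ) {ι : Type*} (u : ι → ℂ) (J : Finset ι) (P Q : ℂ[X]) : Prop :=
  P.natDegree ≤ d ∧ Q.natDegree ≤ d ∧ (∀ j ∈ J, (P.eval (u j) * conj (Q.eval (u j))).im = 0) ∧
    (P.coeff d * conj (Q.coeff d)).im = 0 ∧ dir d 1 P Q = 0 ∧ ¬ Dep P Q

theorem Cond.lin {d : ℕ} {ι : Type*} {u : ι → ℂ} {J : Finset ι} {P Q : ℂ[X]}
    (h : Cond d u J P Q) {c : ℂ} (hc : c ≠ 0) (a b a' b' : ℝ) (hdet : a * b' - a' * b ≠ 0) :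
    Cond d u J (C c * (C (a : ℂ) * P + C (b : ℂ) * Q)) (C c * (C (a' : ℂ) * P + C (b' : ℂ) * Q)) := by
  obtain ⟨hP, hQ, h1, h2, h3, h4⟩ := h
  have hdeg : ∀ x y : ℂ, (C c * (C x * P + C y * Q)).natDegree ≤ d := fun x y =>
    (natDegree_C_mul_le _ _).trans ((natDegree_add_le _ _).trans
      (max_le ((natDegree_C_mul_le _ _).trans hP) ((natDegree_C_mul_le _ _).trans hQ)))
  have key : ∀ x y : ℂ, (x * conj y).im = 0 →
      (c * (a * x + b * y) * conj (c * (a' * x + b' * y))).im = 0 := by
    intro x y hxy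
    simp only [mul_im, mul_re, add_re, add_im, conj_re, conj_im, ofReal_re, ofReal_im] at hxy ⊢
    linear_combination ((c.re ^ 2 + c.im ^ 2) * (a * b' - a' * b)) * hxy
  refine ⟨hdeg _ _, hdeg _ _, fun j hj => ?_, ?_, ?_, ?_⟩
  · simp only [eval_mul, eval_add, eval_C]
    exact key _ _ (h1 j hj)
  · simp only [coeff_C_mul, coeff_add]
    exact key _ _ h2
  · simp only [dir, coeff_C_mul, coeff_add, one_mul, mul_im, mul_re, add_re, add_im, conj_re,
      conj_im, ofReal_re, ofReal_im] at h3 ⊢
    linear_combination ((c.re ^ 2 + c.im ^ 2) * (a * b' - a' * b)) * h3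
  · rintro ⟨s, t, hst, h5⟩
    refine h4 ⟨s * a + t * a', s * b + t * b', ?_, ?_⟩
    · by_contra hn
      push Not at hn
      rcases hst with hs | ht
      · exact hdet (mul_left_cancel₀ hs (by linear_combination b' * hn.1 - a' * hn.2))
      · exact hdet (mul_left_cancel₀ ht (by linear_combination a * hn.2 - b * hn.1))
    · ext n
      have := congrArg (fun f : ℂ[X] => f.coeff n) h5
      simp only [coeff_add, coeff_smul, coeff_C_mul, real_smul, coeff_zero] at this ⊢
      apply mul_left_cancel₀ hc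
      push_cast
      linear_combination this

theorem Cond.nf {d : ℕ} {ι : Type*} {u : ι → ℂ} {J : Finset ι} {P Q : ℂ[X]}
    (h : Cond d u J P Q) (h0 : P.coeff d ≠ 0 ∨ Q.coeff d ≠ 0) :
    ∃ P Q : ℂ[X], Cond d u J P Q ∧ P.coeff d = 1 ∧ Q.coeff d = 0 ∧
      (Q.coeff (d - 1) = 0 ∨ Q.coeff (d - 1) = 1) ∧
      ∃ e, Q.coeff e ≠ 0 ∧ (P.coeff e * conj (Q.coeff e)).re = 0 := by
  obtain ⟨P, Q, h, p1, q0⟩ : ∃ P Q : ℂ[X], Cond d u J P Q ∧ P.coeff d = 1 ∧ Q.coeff d = 0 := by
    by_cases hp : P.coeff d = 0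
    · have hq := h0.resolve_left (not_not.2 hp)
      exact ⟨_, _, h.lin (inv_ne_zero hq) 0 1 1 0 (by norm_num), by simp [hq], by simp [hp]⟩
    · refine ⟨_, _, h.lin (inv_ne_zero hp) 1 0 (-(Q.coeff d / P.coeff d).re) 1 (by norm_num),
        by simp [hp], ?_⟩
      have h1 : (Q.coeff d / P.coeff d).im = 0 := by
        have := h.2.2.2.1
        rw [div_im, ← sub_div, div_eq_zero_iff]
        simp only [mul_im, conj_re, conj_im] at this
        left
        linarith
      have h2 : ((Q.coeff d / P.coeff d).re : ℂ) = Q.coeff d / P.coeff d :=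
        Complex.ext (by simp) (by simp [h1])
      simp only [coeff_C_mul, coeff_add, ofReal_neg, h2, ofReal_one]
      field_simp
      ring
  obtain ⟨P, Q, h, p1, q0, q1⟩ : ∃ P Q : ℂ[X], Cond d u J P Q ∧ P.coeff d = 1 ∧ Q.coeff d = 0 ∧
      (Q.coeff (d - 1) = 0 ∨ Q.coeff (d - 1) = 1) := by
    by_cases hq : Q.coeff (d - 1) = 0
    · exact ⟨P, Q, h, p1, q0, Or.inl hq⟩
    · have h1 : (Q.coeff (d - 1)).im = 0 := by
        have := h.2.2.2.2.1
        simpa [dir, p1, q0] using this
      have h2 : ((Q.coeff (d - 1)).re : ℂ) = Q.coeff (d - 1) :=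
        Complex.ext (by simp) (by simp [h1])
      have h3 : (Q.coeff (d - 1)).re ≠ 0 := fun h3 => hq (by rw [← h2, h3]; simp)
      refine ⟨_, _, h.lin one_ne_zero 1 0 0 (Q.coeff (d - 1)).re⁻¹ (by simpa using h3),
        by simp [p1], by simp [q0], Or.inr ?_⟩
      simp only [coeff_C_mul, coeff_add, ofReal_inv, h2, ofReal_zero]
      field_simp
      ring
  obtain ⟨e, he⟩ : ∃ e, Q.coeff e ≠ 0 := by
    by_contra hn
    push Not at hn
    exact h.2.2.2.2.2 ⟨0, 1, by simp, by ext n; simp [hn]⟩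
  refine ⟨_, _, h.lin one_ne_zero 1 (-(P.coeff e / Q.coeff e).re) 0 1 (by norm_num),
    by simp [p1, q0], by simp [q0], by simpa using q1, e, by simpa using he, ?_⟩
  have h1 : normSq (Q.coeff e) ≠ 0 := by simpa using he
  simp only [coeff_C_mul, coeff_add, ofReal_one, one_mul, ofReal_zero, zero_mul, zero_add, add_mul,
    mul_assoc, mul_conj, add_re, re_ofReal_mul, ofReal_re, div_re]
  simp only [mul_re, conj_re, conj_im]
  field_simp
  ring

theorem Gen.prl2 {ι : Type*} {u : ι → ℂ} (hu : Gen u) {d : ℕ} (hd : 1 ≤ d) (J : Finset ι)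
    (h : 4 * d ≤ J.card + 2) : PRL d 2 1 u J := by
  classical
  intro P Q hP hQ h1 h2 h3
  by_contra hdep
  by_cases h0 : P.coeff d ≠ 0 ∨ Q.coeff d ≠ 0
  swap
  · push Not at h0
    have low : ∀ f : ℂ[X], f.natDegree ≤ d → f.coeff d = 0 → f.natDegree ≤ d - 1 := by
      intro f hf hf'
      rw [natDegree_le_iff_coeff_eq_zero] at hf ⊢
      intro n hn
      rcases (show n = d ∨ d < n by omega) with rfl | hn'
      · exact hf'
      · exact hf n hn'
    exact hdep (hu.prp (d - 1) False J False.elim (fun _ => by omega) P Q (low P hP h0.1)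
      (low Q hQ h0.2) h1 False.elim)
  obtain ⟨P, Q, ⟨hP, hQ, h1, -⟩, p1, q0, q1, e, he, hre⟩ :=
    Cond.nf ⟨hP, hQ, h1, h2 (by omega), h3 le_rfl, hdep⟩ h0
  have hed : e < d := by
    by_contra hn
    rcases (show e = d ∨ d < e by omega) with rfl | hn'
    · exact he q0
    · exact he (coeff_eq_zero_of_natDegree_lt (hQ.trans_lt hn'))
  set G : Finset ℂ := ((Finset.range d).image (fun n => P.coeff n) ∪
    ((Finset.range d).erase e).image (fun n => conj (P.coeff n))) ∪
    ((Finset.range (d - 1)).image (fun n => Q.coeff n) ∪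
    (Finset.range (d - 1)).image (fun n => conj (Q.coeff n))) with hG
  have cG : G.card + 3 ≤ 4 * d := by
    have e1 := Finset.card_image_le (s := Finset.range d) (f := fun n => P.coeff n)
    have e2 := Finset.card_image_le (s := (Finset.range d).erase e) (f := fun n => conj (P.coeff n))
    have e3 := Finset.card_image_le (s := Finset.range (d - 1)) (f := fun n => Q.coeff n)
    have e4 := Finset.card_image_le (s := Finset.range (d - 1)) (f := fun n => conj (Q.coeff n))
    rw [Finset.card_erase_of_mem (Finset.mem_range.2 hed)] at e2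
    simp only [Finset.card_range] at e1 e2 e3 e4
    have e5 := (Finset.card_union_le _ _).trans
      (add_le_add ((Finset.card_union_le _ _).trans (add_le_add e1 e2))
        ((Finset.card_union_le _ _).trans (add_le_add e3 e4)))
    rw [← hG] at e5
    omega
  have mQ : ∀ n, Q.coeff n ∈ cl G ∧ conj (Q.coeff n) ∈ cl G := by
    intro n
    rcases (show n < d - 1 ∨ n = d - 1 ∨ n = d ∨ d < n by omega) with hn | rfl | rfl | hn
    · have := Finset.mem_range.2 hn
      exact ⟨subset_cl (Finset.mem_union_right _ (Finset.mem_union_left _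
          (Finset.mem_image_of_mem (fun n => Q.coeff n) this))),
        subset_cl (Finset.mem_union_right _ (Finset.mem_union_right _
          (Finset.mem_image_of_mem (fun n => conj (Q.coeff n)) this)))⟩
    · rcases q1 with q1 | q1 <;> simp [q1]
    · simp [q0]
    · simp [coeff_eq_zero_of_natDegree_lt (hQ.trans_lt hn)]
  have mP : ∀ n, P.coeff n ∈ cl G := by
    intro n
    rcases lt_trichotomy n d with hn | rfl | hn
    · exact subset_cl (Finset.mem_union_left _ (Finset.mem_union_left _
        (Finset.mem_image_of_mem (fun n => P.coeff n) (Finset.mem_range.2 hn))))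
    · simp [p1]
    · simp [coeff_eq_zero_of_natDegree_lt (hP.trans_lt hn)]
  have mP' : ∀ n, conj (P.coeff n) ∈ cl G := by
    intro n
    rcases lt_trichotomy n d with hn | rfl | hn
    · by_cases hne : n = e
      · subst hne
        refine div_mem_cl (mQ n).1 (mul_mem (mP n) (mQ n).2) he ?_
        have := add_conj (P.coeff n * conj (Q.coeff n))
        rw [hre, map_mul, conj_conj] at this
        push_cast at this
        linear_combination this
      · exact subset_cl (Finset.mem_union_left _ (Finset.mem_union_right _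
          (Finset.mem_image_of_mem (fun n => conj (P.coeff n))
            (Finset.mem_erase.2 ⟨hne, Finset.mem_range.2 hn⟩))))
    · simp [p1]
    · simp [coeff_eq_zero_of_natDegree_lt (hP.trans_lt hn)]
  have := hu.card_le_of_insert J G fun j hj => point_ins mP mP' (fun n => (mQ n).1)
    (fun n => (mQ n).2) p1 q0 (by rintro rfl; simp at he) (h1 j hj)
  omega

end Pool.Agent.P.MP_32bf8a_an.PR
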