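import Pool.Agent.P.MP_32bf8a_an.PR2.Alt

/-!
Phase retrieval with a condition of order `0`, `1` or `2` at infinity.
-/

open Filter Topology Complex Polynomial
open scoped ComplexConjugate

namespace Pool.Agent.P.MP_32bf8a_an.PR

/-- the first order term at infinity in the direction `μ` -/
noncomputable def dir (d : ℕ) (μ : ℂ) (P Q : ℂ[X]) : ℝ :=
  (P.coeff d * conj (μ * Q.coeff (d - 1)) + μ * P.coeff (d - 1) * conj (Q.coeff d)).im

/-- phase retrieval in degree `d` from the points `u j`, `j ∈ J`, the point at infinity when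
`1 ≤ l` and the direction `μ` at infinity when `2 ≤ l` -/
def PRL (d l : ℕ) (μ : ℂ) {ι : Type*} (u : ι → ℂ) (J : Finset ι) : Prop :=
  ∀ P Q : ℂ[X], P.natDegree ≤ d → Q.natDegree ≤ d →
    (∀ j ∈ J, (P.eval (u j) * conj (Q.eval (u j))).im = 0) →
    (1 ≤ l → (P.coeff d * conj (Q.coeff d)).im = 0) → (2 ≤ l → dir d μ P Q = 0) → Dep P Q

theorem PRL.mono {d l l' : ℕ} {μ : ℂ} {ι : Type*} {u : ι → ℂ} {J J' : Finset ι}
    (h : PRL d l μ u J) (hl : l ≤ l') (hJ : J ⊆ J') : PRL d l' μ u J' :=
  fun P Q hP hQ h1 h2 h3 => h P Q hP hQ (fun j hj => h1 j (hJ hj)) (fun h => h2 (h.trans hl))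
    fun h => h3 (h.trans hl)

theorem PRP.prl {d l : ℕ} {b : Prop} (μ : ℂ) {ι : Type*} {u : ι → ℂ} {J : Finset ι}
    (h : PRP d b u J) (hb : b → 1 ≤ l) : PRL d l μ u J :=
  fun P Q hP hQ h1 h2 _ => h P Q hP hQ h1 fun h => h2 (hb h)

theorem PRL.prp {d l : ℕ} {b : Prop} {μ : ℂ} {ι : Type*} {u : ι → ℂ} {J : Finset ι}
    (h : PRL d l μ u J) (hl : l ≤ 1) (hb : 1 ≤ l → b) : PRP d b u J :=
  fun P Q hP hQ h1 h2 => h P Q hP hQ h1 (fun h => h2 (hb h)) fun h => absurd h (by omega)

/-- the second coefficient from the top, times `μ` -/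
noncomputable def sec (d : ℕ) (μ : ℂ) : (Fin (d + 1) → ℂ) →ₗ[ℝ] ℂ where
  toFun A := μ * A ⟨d - 1, by omega⟩
  map_add' A B := by simp [mul_add]
  map_smul' c A := by simp [mul_left_comm]

theorem prl_iff {d l : ℕ} {μ : ℂ} {ι : Type*} {u : ι → ℂ} {J : Finset ι} :
    PRL d l μ u J ↔ ∀ A B : Fin (d + 1) → ℂ,
      (∀ j ∈ J, (ev d (u j) A * conj (ev d (u j) B)).im = 0) →
      (1 ≤ l → (top d A * conj (top d B)).im = 0) →
      (2 ≤ l → W (top d) (sec d μ) A B = 0) → Dep A B := by
  constructor
  · intro h A B h1 h2 h3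
    obtain ⟨P, hP, rfl⟩ := exists_pol A
    obtain ⟨Q, hQ, rfl⟩ := exists_pol B
    rw [dep_coeff_iff hP hQ]
    refine h P Q hP hQ (fun j hj => ?_) h2 h3
    rw [← ev_coeff hP, ← ev_coeff hQ]
    exact h1 j hj
  · intro h P Q hP hQ h1 h2 h3
    rw [← dep_coeff_iff hP hQ]
    refine h _ _ (fun j hj => ?_) h2 h3
    rw [ev_coeff hP, ev_coeff hQ]
    exact h1 j hj

theorem PRL.eventually {d l : ℕ} {μ : ℂ} {ι : Type*} {u₀ : ι → ℂ} {J : Finset ι}
    (h : PRL d l μ u₀ J) : ∀ᶠ u in 𝓝 u₀, PRL d l μ u J := by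
  have := eventually_alt (T := ι → ℂ) (ι := Option (Option J))
    (fun u j => j.elim (if 1 ≤ l then top d else 0)
      fun j => j.elim (if 2 ≤ l then top d else 0) fun j => ev d (u j))
    (fun u j => j.elim (top d) fun j => j.elim (sec d μ) fun j => ev d (u j)) (by
      rintro (_ | _ | j)
      · simp only [Option.elim]
        split_ifs
        · simp only [top, LinearMap.proj_apply]
          fun_prop
        · simp only [LinearMap.zero_apply]
          fun_prop
      · simp only [Option.elim]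
        split_ifs
        · simp only [top, LinearMap.proj_apply]
          fun_prop
        · simp only [LinearMap.zero_apply]
          fun_prop
      · simp only [Option.elim, ev, LinearMap.coe_mk, AddHom.coe_mk]
        fun_prop) (by
      rintro (_ | _ | j)
      · simp only [Option.elim, top, LinearMap.proj_apply]
        fun_prop
      · simp only [Option.elim, sec, LinearMap.coe_mk, AddHom.coe_mk]
        fun_prop
      · simp only [Option.elim, ev, LinearMap.coe_mk, AddHom.coe_mk]
        fun_prop) u₀ (fun p q hpq => by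
      refine prl_iff.1 h p q (fun j hj => (W_self _ _ _).1 (hpq (some (some ⟨j, hj⟩))))
        (fun hl => ?_) fun hl => ?_
      · have := hpq none
        simp only [Option.elim, hl, if_true] at this
        exact (W_self _ _ _).1 this
      · simpa only [Option.elim, hl, if_true] using hpq (some none))
  refine this.mono fun u hu => prl_iff.2 fun A B h1 h2 h3 => hu A B ?_
  rintro (_ | _ | j)
  · simp only [Option.elim]
    split_ifs with hl
    · exact (W_self _ _ _).2 (h2 hl)
    · simp [W]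
  · simp only [Option.elim]
    split_ifs with hl
    · exact h3 hl
    · simp [W]
  · exact (W_self _ _ _).2 (h1 j j.2)

end Pool.Agent.P.MP_32bf8a_an.PR
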