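import Pool.Agent.P.MP_32bf8a_an.PR2.Tangent

/-!
The recursion on the binary expansion of the degree.
-/

open Filter Topology Complex Polynomial
open scoped ComplexConjugate

namespace Pool.Agent.P.MP_32bf8a_an.PR

theorem prl_of_clj {F l : ℕ} (hF : 1 ≤ F) (hl : l ≤ 2) {κ ι : Type*} {z : κ → ℂ} {z₀ : ℂ}
    (hz₀ : ‖z₀‖ = 1) {J : Finset κ} (hz : ∀ j ∈ J, z j ≠ z₀) (T : Finset ℂ)
    (hT : ∀ w ∈ T, ‖w‖ = 1 ∧ ∃ j ∈ J, z j = w) (hc : 2 * F < T.card + l) {c : ι → ℂ}
    {J' : Finset ι} (h : CLJ F c J') (hJ' : ∀ i ∈ J', ∃ j ∈ J, z j = c i) :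
    PRL F l (I * z₀) (fun j => (z j - z₀)⁻¹) J := by
  refine mob hF hz fun P Q hP hQ h1 h2 h3 => h P Q hP hQ
    (circle_level hl hP hQ hz₀ T (fun w hw => (hT w hw).1) (fun hw => ?_) hc (fun w hw => ?_)
      h2 h3) fun i hi => ?_
  · obtain ⟨j, hj, e⟩ := (hT _ hw).2
    exact hz j hj e
  · obtain ⟨j, hj, rfl⟩ := (hT _ hw).2
    exact h1 j hj
  · obtain ⟨j, hj, e⟩ := hJ' i hi
    exact e ▸ h1 j hj

/-- `4 F - m` generic points and a point of order `m` at infinity; one point may be removed, or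
the order may be lowered by one -/
def TT (F m : ℕ) : Prop :=
  ∃ (ι : Type) (_ : Fintype ι) (u : ι → ℂ) (μ : ℂ), Fintype.card ι + m = 4 * F ∧ Gen u ∧
    ‖μ‖ = 1 ∧ PRL F (m - 1) μ u Finset.univ ∧
    ∀ J : Finset ι, Fintype.card ι ≤ J.card + 1 → PRL F m μ u J

theorem tt_of_level {F m : ℕ} (hF : 1 ≤ F) (hm1 : 1 ≤ m) (hm2 : m ≤ 2) {ι : Type} [Fintype ι]
    [DecidableEq ι] (hι : Fintype.card ι + 2 = 2 * F) {c : ι → ℂ} {s : ℂ} (hs : ‖s‖ = 1)
    (hl : ∀ᶠ r : ℝ in 𝓝[≠] 1, ∀ j₀ : Option ι,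
      CLJ F (fun j : Option ι => j.elim (r * s) c) (Finset.univ.erase j₀)) : TT F m := by
  classical
  obtain ⟨η, hη, hη'⟩ := exists_circle_points (insert s (Finset.univ.image c))
  set n := 2 * F + 1 - m with hn
  set z : ℝ → Fin n ⊕ Option ι → ℂ :=
    fun r => Sum.elim (fun i => η i) fun j => j.elim (r * s) c with hz
  have hηi : Function.Injective fun i : Fin n => η i := hη.comp Fin.val_injective
  have hηs : ∀ i, η i ≠ s := fun i h => (hη' i).2 (h ▸ Finset.mem_insert_self _ _)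
  have hne : ∀ r : ℝ, r * s ≠ η n → ∀ j, z r j ≠ η n := by
    rintro r hr (i | _ | j)
    · intro h
      have := hη h
      omega
    · exact hr
    · intro h
      exact (hη' n).2 (Finset.mem_insert_of_mem (Finset.mem_image.2 ⟨j, Finset.mem_univ _, h⟩))
  have hne1 : ((1 : ℝ) : ℂ) * s ≠ η n := by simpa using (hηs n).symm
  have hcont : ContinuousAt (fun r : ℝ => fun j => (z r j - η n)⁻¹) 1 := by
    rw [continuousAt_pi]
    intro j
    refine ContinuousAt.inv₀ (Continuous.continuousAt ?_) (sub_ne_zero.2 (hne 1 hne1 j))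
    rcases j with i | _ | j <;> simp only [hz, Sum.elim_inl, Sum.elim_inr, Option.elim] <;>
      fun_prop
  obtain ⟨r₀, hr₀⟩ := hl.exists
  have hA : ∀ (l : ℕ) (J : Finset (Fin n ⊕ Option ι)) (K : Finset (Fin n)), l ≤ 2 →
      (∀ j, Sum.inr j ∈ J) → (∀ i ∈ K, Sum.inl i ∈ J) → 2 * F < K.card + 1 + l →
      ∀ᶠ r : ℝ in 𝓝[≠] 1, PRL F l (I * η n) (fun j => (z r j - η n)⁻¹) J := by
    intro l J K hl2 h1 h2 h3
    refine (hcont.eventually (PRL.eventually ?_)).filter_mono nhdsWithin_le_nhds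
    refine prl_of_clj hF hl2 (hη' n).1 (fun j _ => hne 1 hne1 j)
      (insert s (K.image fun i : Fin n => η i)) ?_ ?_ (hr₀ none) ?_
    · rw [Finset.forall_mem_insert, Finset.forall_mem_image]
      exact ⟨⟨hs, _, h1 none, by simp [hz]⟩, fun i hi => ⟨(hη' i).1, _, h2 i hi, rfl⟩⟩
    · rwa [Finset.card_insert_of_notMem (by simp [hηs]),
        Finset.card_image_of_injective _ hηi]
    · rintro (_ | i) hi
      · simp at hi
      · exact ⟨_, h1 (some i), rfl⟩
  have hB : ∀ᶠ r : ℝ in 𝓝[≠] 1, ∀ j₀,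
      PRL F m (I * η n) (fun j => (z r j - η n)⁻¹) (Finset.univ.erase j₀) := by
    rw [eventually_all]
    rintro (i₀ | j₀)
    · refine hA m _ (Finset.univ.erase i₀) hm2 (by simp) (by simp) ?_
      have := i₀.2
      rw [Finset.card_erase_of_mem (Finset.mem_univ _), Finset.card_univ, Fintype.card_fin]
      omega
    · have hc : Continuous fun r : ℝ => (r : ℂ) * s := by fun_prop
      refine (hl.and ((hc.continuousAt.eventually_ne hne1).filter_mono nhdsWithin_le_nhds)).mono ?_
      rintro r ⟨h1, h2⟩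
      refine prl_of_clj hF hm2 (hη' n).1 (fun j _ => hne r h2 j)
        (Finset.univ.image fun i : Fin n => η i) ?_ ?_ (h1 j₀) ?_
      · rw [Finset.forall_mem_image]
        exact fun i _ => ⟨(hη' i).1, Sum.inl i, by simp, rfl⟩
      · rw [Finset.card_image_of_injective _ hηi, Finset.card_univ, Fintype.card_fin]
        omega
      · exact fun i hi => ⟨Sum.inr i, by simpa using hi, rfl⟩
  obtain ⟨r, h1, h2⟩ := ((hA (m - 1) Finset.univ Finset.univ (by omega) (by simp) (by simp)
    (by simp; omega)).and hB).exists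
  obtain ⟨u, ⟨h3, h4⟩, hg⟩ := exists_gen _
    (h1.eventually.and (eventually_all.2 fun j₀ => (h2 j₀).eventually))
  refine ⟨Fin n ⊕ Option ι, inferInstance, u, I * η n, by simp; omega, hg, by simp [(hη' n).1],
    h3, fun J hJ => ?_⟩
  obtain ⟨j₀, hj₀⟩ := (Finset.card_le_one_iff_subset_singleton (s := Jᶜ)).1 (by
    rw [Finset.card_compl]; omega)
  refine (h4 j₀).mono le_rfl fun j hj => ?_
  by_contra hn
  exact (Finset.mem_erase.1 hj).1 (Finset.mem_singleton.1 (hj₀ (Finset.mem_compl.2 hn)))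

theorem tt_odd {E m : ℕ} (hE : 1 ≤ E) (hm1 : 1 ≤ m) (hm2 : m ≤ 2) : TT (2 * E + 1) m := by
  obtain ⟨u, -, hg⟩ := exists_gen (fun _ : Fin (4 * E) => 0) univ_mem
  obtain ⟨ε, hε⟩ := level (2 * E + 1) hg.injective (s := 1) (by simp) (by
      intro δ hδ J hJ
      rw [Fintype.card_fin] at hJ
      refine hg.prp _ _ J (fun he => ?_) fun he => ?_
      · obtain ⟨e, rfl⟩ := he
        omega
      · obtain ⟨e, rfl⟩ := Nat.not_even_iff_odd.1 he
        omega) (by
      intro δ hδ hδ' J hJ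
      rw [Fintype.card_fin] at hJ
      by_cases h : δ = 2 * E
      · rw [if_pos ⟨E, by omega⟩, map_one, one_pow]
        exact hg.prl2 (by omega) J (by omega)
      · refine (hg.prp _ True J (fun _ => by omega) (by simp)).prl _ fun _ => ?_
        split_ifs <;> omega)
  exact tt_of_level (by omega) hm1 hm2 (by simp; omega) (by simp) hε

theorem tt_even {F m : ℕ} (hF : 1 ≤ F) (hm1 : 1 ≤ m) (hm2 : m ≤ 2) (h : TT F 2) :
    TT (2 * F) m := by
  classical
  obtain ⟨ι, _, u, μ, hι, hg, hμ, h1, h2⟩ := h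
  obtain ⟨s, hs⟩ := IsAlgClosed.exists_pow_nat_eq (conj μ) two_pos
  have hs2 : ‖s ^ 2‖ = 1 := by rw [hs, RCLike.norm_conj, hμ]
  have hs1 : s * conj s = 1 := by rw [mul_conj', ← ofReal_pow, ← norm_pow, hs2, ofReal_one]
  have hs3 : conj s ^ 2 = μ := by rw [← map_pow, hs, conj_conj]
  obtain ⟨ε, hε⟩ := level (2 * F) hg.injective hs1 (by
      intro δ hδ J hJ
      by_cases h : δ = 2 * F
      · have : J = Finset.univ := (Finset.card_eq_iff_eq_univ J).1
          (le_antisymm (Finset.card_le_univ J) (by omega))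
        rw [this, h, show 2 * F / 2 = F by omega]
        exact h1.prp le_rfl fun _ => even_two_mul F
      · refine hg.prp _ _ J (fun he => ?_) fun he => ?_
        · obtain ⟨e, rfl⟩ := he
          omega
        · obtain ⟨e, rfl⟩ := Nat.not_even_iff_odd.1 he
          omega) (by
      intro δ hδ hδ' J hJ
      by_cases h : δ = 2 * F
      · rw [if_pos ⟨F, by omega⟩, hs3, h, show 2 * F / 2 = F by omega]
        exact h2 J (by omega)
      · refine (hg.prp _ True J (fun _ => by omega) (by simp)).prl _ fun _ => ?_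
        split_ifs <;> omega)
  exact tt_of_level (by omega) hm1 hm2 (by omega) hs2 hε

theorem digit_sum {n : ℕ} (hn : 1 ≤ n) :
    (Nat.digits 2 n).sum = n % 2 + (Nat.digits 2 (n / 2)).sum := by
  rw [Nat.digits_def' (by norm_num) hn, List.sum_cons]

theorem pos_of_digit_sum {n : ℕ} (h : 1 ≤ (Nat.digits 2 n).sum) : 1 ≤ n := by
  rcases n with _ | n
  · simp at h
  · omega

theorem exists_tt (F : ℕ) (h : 2 ≤ (Nat.digits 2 F).sum) {m : ℕ} (hm1 : 1 ≤ m) (hm2 : m ≤ 2) :
    TT F m := by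
  induction F using Nat.strong_induction_on generalizing m with
  | _ F ih =>
  have hF := pos_of_digit_sum (n := F) (by omega)
  rw [digit_sum hF] at h
  have hE := pos_of_digit_sum (n := F / 2) (by omega)
  rcases Nat.mod_two_eq_zero_or_one F with h2 | h2
  · rw [show F = 2 * (F / 2) by omega]
    exact tt_even hE hm1 hm2 (ih _ (by omega) (by omega) one_le_two le_rfl)
  · rw [show F = 2 * (F / 2) + 1 by omega]
    exact tt_odd hE hm1 hm2

/-- `2 D - g` points and the unit circle do phase retrieval in degree `D` -/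
def CN (D g : ℕ) : Prop :=
  ∃ (ι : Type) (_ : Fintype ι) (c : ι → ℂ), Fintype.card ι + g = 2 * D ∧ CL D c

theorem cn_odd {F : ℕ} (h : TT F 1) : CN (2 * F + 1) 3 := by
  obtain ⟨ι, _, u, μ, hι, hg, -, h1, h2⟩ := h
  obtain ⟨c, hc⟩ := cluster (2 * F + 1) hg.injective fun δ hδ J hJ => by
    rcases (show δ = 2 * F + 1 ∨ δ = 2 * F ∨ δ < 2 * F by omega) with h | h | h
    · have : J = Finset.univ := (Finset.card_eq_iff_eq_univ J).1
        (le_antisymm (Finset.card_le_univ J) (by omega))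
      rw [this, show δ / 2 = F by omega]
      exact h1.prp (by omega) (by omega)
    · rw [show δ / 2 = F by omega]
      exact (h2 J (by omega)).prp le_rfl fun _ => ⟨F, by omega⟩
    · refine hg.prp _ _ J (fun he => ?_) fun he => ?_
      · obtain ⟨e, rfl⟩ := he
        omega
      · obtain ⟨e, rfl⟩ := Nat.not_even_iff_odd.1 he
        omega
  exact ⟨ι, inferInstance, c, by omega, hc⟩

theorem cn_even {d : ℕ} (hd : 2 ≤ d) (h : CN d 3) : CN (2 * d) 3 := by
  classical
  obtain ⟨ι, _, c, hι, hc⟩ := h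
  obtain ⟨η, hη, hη'⟩ := exists_circle_points (Finset.univ.image c)
  have hηi : Function.Injective fun i : Fin (2 * d) => η i := hη.comp Fin.val_injective
  have h1 := prl_of_clj (F := d) (l := 1) (by omega) one_le_two
    (z := Sum.elim (fun i : Fin (2 * d) => η i) c) (hη' (2 * d)).1 (J := Finset.univ) (by
      rintro (i | j) - h
      · have := hη h
        omega
      · exact (hη' _).2 (Finset.mem_image.2 ⟨j, Finset.mem_univ _, h⟩))
    (Finset.univ.image fun i : Fin (2 * d) => η i) (by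
      rw [Finset.forall_mem_image]
      exact fun i _ => ⟨(hη' i).1, Sum.inl i, by simp, rfl⟩)
    (by rw [Finset.card_image_of_injective _ hηi]; simp)
    (c := c) (J' := Finset.univ)
    (fun P Q hP hQ h1 h2 => hc P Q hP hQ h1 fun j => h2 j (Finset.mem_univ j))
    fun i _ => ⟨Sum.inr i, by simp, rfl⟩
  obtain ⟨u, hu, hg⟩ := exists_gen _ h1.eventually
  have hι' : Fintype.card (Fin (2 * d) ⊕ ι) + 3 = 2 * (2 * d) := by simp; omega
  obtain ⟨c', hc'⟩ := cluster (2 * d) hg.injective fun δ hδ J hJ => by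
    by_cases h : δ = 2 * d
    · have : J = Finset.univ := (Finset.card_eq_iff_eq_univ J).1
        (le_antisymm (Finset.card_le_univ J) (by omega))
      rw [this, show δ / 2 = d by omega]
      exact PRL.prp hu le_rfl fun _ => ⟨d, by omega⟩
    · refine hg.prp _ _ J (fun he => ?_) fun he => ?_
      · obtain ⟨e, rfl⟩ := he
        omega
      · obtain ⟨e, rfl⟩ := Nat.not_even_iff_odd.1 he
        omega
  exact ⟨_, inferInstance, c', hι', hc'⟩

theorem cn_three (D : ℕ) (h : 3 ≤ (Nat.digits 2 D).sum) : CN D 3 := by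
  induction D using Nat.strong_induction_on with
  | _ D ih =>
  have hD := pos_of_digit_sum (n := D) (by omega)
  rw [digit_sum hD] at h
  have hE := pos_of_digit_sum (n := D / 2) (by omega)
  rcases Nat.mod_two_eq_zero_or_one D with h2 | h2
  · rw [show D = 2 * (D / 2) by omega]
    obtain ⟨ι, _, c, hι, hc⟩ := ih (D / 2) (by omega) (by omega)
    exact cn_even (by omega) ⟨ι, inferInstance, c, hι, hc⟩
  · rw [show D = 2 * (D / 2) + 1 by omega]
    exact cn_odd (exists_tt _ (by omega) le_rfl one_le_two)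

theorem digit_sum_pow (j : ℕ) : (Nat.digits 2 (2 ^ j)).sum = 1 := by
  induction j with
  | zero => simp
  | succ j ih =>
    rw [digit_sum Nat.one_le_two_pow, pow_succ, Nat.mul_div_cancel _ two_pos, ih]
    simp

theorem digit_sum_pos (D : ℕ) (hD : 1 ≤ D) : 1 ≤ (Nat.digits 2 D).sum := by
  induction D using Nat.strong_induction_on with
  | _ D ih =>
  rw [digit_sum hD]
  rcases Nat.mod_two_eq_zero_or_one D with h2 | h2
  · have := ih (D / 2) (by omega) (by omega)
    omega
  · omega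

theorem exists_cn {D : ℕ} (hD : 1 ≤ D) : CN D (min 3 (Nat.digits 2 D).sum) := by
  have := digit_sum_pos D hD
  rcases (show (Nat.digits 2 D).sum = 1 ∨ (Nat.digits 2 D).sum = 2 ∨ 3 ≤ (Nat.digits 2 D).sum
    by omega) with h | h | h
  · obtain ⟨u, -, hg⟩ := exists_gen (fun _ : Fin (2 * D - 1) => 0) univ_mem
    obtain ⟨c, hc⟩ := cluster D hg.injective fun δ hδ J hJ => by
      rw [Fintype.card_fin] at hJ
      refine hg.prp _ _ J (fun he => ?_) fun he => ?_
      · obtain ⟨e, rfl⟩ := he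
        omega
      · obtain ⟨e, rfl⟩ := Nat.not_even_iff_odd.1 he
        omega
    exact ⟨_, inferInstance, c, by rw [Fintype.card_fin]; omega, hc⟩
  · obtain ⟨c, hc⟩ := exists_cl D hD fun j hj => by
      rw [hj, digit_sum_pow] at h
      omega
    have := digit_sum hD
    exact ⟨_, inferInstance, c, by rw [Fintype.card_fin]; omega, hc⟩
  · rw [min_eq_left h]
    exact cn_three D h

end Pool.Agent.P.MP_32bf8a_an.PR
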