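import Pool.Agent.P.MP_32bf8a_an.PR2.Config

/-!
A point of the unit circle together with the tangent direction counts twice; moving a point to
infinity.
-/

open Filter Topology Complex Polynomial
open scoped ComplexConjugate

namespace Pool.Agent.P.MP_32bf8a_an.PR

/-- the first order term at `z` in the direction `μ` -/
noncomputable def dirAt (z μ : ℂ) (P Q : ℂ[X]) : ℝ :=
  (P.eval z * conj (μ * Q.derivative.eval z) + μ * P.derivative.eval z * conj (Q.eval z)).im

theorem coeff_X_der (f : ℂ[X]) (a : ℕ) : (X * derivative f).coeff a = a * f.coeff a := by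
  rcases a with _ | a
  · simp
  · rw [coeff_X_mul, coeff_derivative]; push_cast; ring

theorem natDegree_X_der {D : ℕ} {f : ℂ[X]} (h : f.natDegree ≤ D) :
    (X * derivative f).natDegree ≤ D := by
  rw [natDegree_le_iff_coeff_eq_zero] at h ⊢
  intro n hn
  rw [coeff_X_der, h n hn, mul_zero]

theorem der_st {D : ℕ} {P : ℂ[X]} (h : P.natDegree ≤ D) {z : ℂ} (hz : ‖z‖ = 1) :
    z * (st D P).derivative.eval z =
      z ^ D * (D * conj (P.eval z) - conj (z * P.derivative.eval z)) := by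
  have h1 : X * derivative (st D P) = C (D : ℂ) * st D P - st D (X * derivative P) := by
    ext a
    rw [coeff_X_der, coeff_sub, coeff_C_mul]
    rcases le_or_gt a D with ha | ha
    · rw [coeff_st _ ha, coeff_st _ ha, coeff_X_der, map_mul, map_natCast, Nat.cast_sub ha]
      ring
    · rw [coeff_eq_zero_of_natDegree_lt ((natDegree_st_le h).trans_lt ha),
        coeff_eq_zero_of_natDegree_lt ((natDegree_st_le (natDegree_X_der h)).trans_lt ha)]
      simp
  have h2 := congrArg (eval z) h1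
  rw [eval_mul, eval_X, eval_sub, eval_mul, eval_C, eval_st h hz, eval_st (natDegree_X_der h) hz,
    eval_mul, eval_X] at h2
  rw [h2]
  ring

theorem circle_level {D l : ℕ} (hl : l ≤ 2) {P Q : ℂ[X]} (hP : P.natDegree ≤ D)
    (hQ : Q.natDegree ≤ D) {z₀ : ℂ} (hz₀ : ‖z₀‖ = 1) (s : Finset ℂ) (hs : ∀ z ∈ s, ‖z‖ = 1)
    (hz : z₀ ∉ s) (hc : 2 * D < s.card + l)
    (h : ∀ z ∈ s, (P.eval z * conj (Q.eval z)).im = 0)
    (h1 : 1 ≤ l → (P.eval z₀ * conj (Q.eval z₀)).im = 0)
    (h2 : 2 ≤ l → dirAt z₀ (I * z₀) P Q = 0) : P * st D Q = st D P * Q := by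
  classical
  rcases (show l = 0 ∨ l = 1 ∨ l = 2 by omega) with rfl | rfl | rfl
  · exact circle_identity hP hQ s hs hc h
  · refine circle_identity hP hQ (insert z₀ s) ?_ (by rwa [Finset.card_insert_of_notMem hz]) ?_
    · simpa only [Finset.forall_mem_insert] using ⟨hz₀, hs⟩
    · simpa only [Finset.forall_mem_insert] using ⟨h1 le_rfl, h⟩
  have key : ∀ z, ‖z‖ = 1 → (P.eval z * conj (Q.eval z)).im = 0 →
      (P * st D Q - st D P * Q).eval z = 0 := by
    intro z hz h
    rw [eval_sub, eval_mul, eval_mul, eval_st hP hz, eval_st hQ hz]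
    have := conj_eq_iff_im.2 h
    rw [map_mul, conj_conj] at this
    linear_combination -z ^ D * this
  have hdeg : (P * st D Q - st D P * Q).natDegree ≤ 2 * D :=
    (natDegree_sub_le _ _).trans (max_le
      (natDegree_mul_le.trans (by have := natDegree_st_le hQ; omega))
      (natDegree_mul_le.trans (by have := natDegree_st_le hP; omega)))
  have hder : (P * st D Q - st D P * Q).derivative.eval z₀ = 0 := by
    have hz0 : z₀ ≠ 0 := by rintro rfl; simp at hz₀
    apply mul_left_cancel₀ hz0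
    have e1 := conj_eq_iff_im.2 (h1 (by omega))
    have e2 := conj_eq_iff_im.2 (h2 le_rfl)
    have e3 := der_st hP hz₀
    have e4 := der_st hQ hz₀
    simp only [map_mul, map_add, conj_conj, conj_I, map_neg, neg_neg] at e1 e2 e3 e4
    simp only [derivative_sub, derivative_mul, eval_sub, eval_add, eval_mul, eval_st hP hz₀,
      eval_st hQ hz₀]
    linear_combination P.eval z₀ * e4 - Q.eval z₀ * e3 - D * z₀ ^ D * e1 + I * z₀ ^ D * e2 +
      z₀ ^ D * (z₀ * P.derivative.eval z₀ * conj (Q.eval z₀) +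
        conj z₀ * conj (P.derivative.eval z₀) * Q.eval z₀ -
        P.eval z₀ * conj z₀ * conj (Q.derivative.eval z₀) -
        conj (P.eval z₀) * z₀ * Q.derivative.eval z₀) * I_mul_I
  obtain ⟨H, hH⟩ := dvd_iff_isRoot.2 (key z₀ hz₀ (h1 (by omega)))
  rw [← sub_eq_zero, hH]
  by_cases hH0 : H = 0
  · rw [hH0, mul_zero]
  rw [hH, natDegree_mul (X_sub_C_ne_zero z₀) hH0, natDegree_X_sub_C] at hdeg
  refine absurd (eq_zero_of_natDegree_lt_card_of_eval_eq_zero' H (insert z₀ s) ?_ ?_) hH0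
  · rw [Finset.forall_mem_insert]
    refine ⟨by simpa [hH] using hder, fun z hzs => ?_⟩
    have := key z (hs z hzs) (h z hzs)
    rw [hH, eval_mul, eval_sub, eval_X, eval_C] at this
    exact (mul_eq_zero.1 this).resolve_left (sub_ne_zero.2 fun e => hz (e ▸ hzs))
  · rw [Finset.card_insert_of_notMem hz]
    omega

theorem mob {d l : ℕ} (hd : 1 ≤ d) {κ : Type*} {z : κ → ℂ} {z₀ μ : ℂ} {J : Finset κ}
    (hz : ∀ j ∈ J, z j ≠ z₀) (h : ∀ P Q : ℂ[X], P.natDegree ≤ d → Q.natDegree ≤ d →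
      (∀ j ∈ J, (P.eval (z j) * conj (Q.eval (z j))).im = 0) →
      (1 ≤ l → (P.eval z₀ * conj (Q.eval z₀)).im = 0) → (2 ≤ l → dirAt z₀ μ P Q = 0) →
      Dep P Q) : PRL d l μ (fun j => (z j - z₀)⁻¹) J := by
  intro P Q hP hQ h1 h2 h3
  have hdeg : ∀ f : ℂ[X], f.natDegree ≤ d → (taylor (-z₀) (reflect d f)).natDegree ≤ d := by
    intro f hf
    rw [natDegree_taylor]
    exact natDegree_reflect_le.trans (max_le le_rfl hf)
  have h0 : ∀ f : ℂ[X], (taylor (-z₀) (reflect d f)).eval z₀ = f.coeff d := by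
    intro f
    rw [taylor_eval, add_neg_cancel, ← coeff_zero_eq_eval_zero, coeff_reflect, revAt_zero]
  have h0' : ∀ f : ℂ[X], (taylor (-z₀) (reflect d f)).derivative.eval z₀ = f.coeff (d - 1) := by
    intro f
    rw [← taylor_coeff_one, taylor_taylor, add_neg_cancel, taylor_zero, coeff_reflect, revAt_le hd]
  obtain ⟨a, b, hab, hd⟩ := h _ _ (hdeg P hP) (hdeg Q hQ) (by
    intro j hj
    have hj' := sub_ne_zero.2 (hz j hj)
    rw [taylor_eval, taylor_eval, ← sub_eq_add_neg, eval_reflect hP hj', eval_reflect hQ hj',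
      map_mul, mul_mul_mul_comm, mul_conj, im_ofReal_mul, h1 j hj, mul_zero])
    (by rw [h0, h0]; exact h2) (by rw [dirAt, h0, h0, h0', h0']; exact h3)
  refine ⟨a, b, hab, ?_⟩
  have e1 : ∀ (r : ℝ) (f : ℂ[X]), r • f = C (r : ℂ) * f := by
    intro r f; ext n; simp
  rw [e1, e1] at hd ⊢
  rw [← smul_eq_C_mul, ← smul_eq_C_mul, ← map_smul, ← map_smul, ← map_add, taylor_eq_zero,
    smul_eq_C_mul, smul_eq_C_mul, ← reflect_C_mul, ← reflect_C_mul, ← reflect_add,
    reflect_eq_zero_iff] at hd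
  exact hd

end Pool.Agent.P.MP_32bf8a_an.PR
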